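import Mathlib
import Pool.Agent.Y849.OD.Emb

universe u

namespace Pool.Agent.Results.MP_75351f_al.SameClass

/-- Let `G` be an ordered group with an abelian normal subgroup `A` such that `G ⧸ A` is nilpotent.
Then `G` order-embeds into a divisible ordered group `H` with an abelian normal subgroup `B` such
that `B` contains the image of `A` and `H ⧸ B` is nilpotent of class at most the class of
`G ⧸ A`. -/
theorem result (G : Type u) [Group G] [LinearOrder G] [MulLeftMono G] [MulRightMono G]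
    (A : Subgroup G) [A.Normal] (hA : ∀ a ∈ A, ∀ b ∈ A, a * b = b * a)
    (hnil : Group.IsNilpotent (G ⧸ A)) :
    ∃ (H : Type u) (_ : Group H) (_ : LinearOrder H) (_ : MulLeftMono H) (_ : MulRightMono H)
      (φ : G →* H) (B : Subgroup H) (_ : B.Normal),
      (∀ a b : G, a ≤ b ↔ φ a ≤ φ b) ∧ (∀ (h : H) (n : ℕ), 1 ≤ n → ∃ x : H, x ^ n = h) ∧
      (∀ a ∈ B, ∀ b ∈ B, a * b = b * a) ∧ (∀ a ∈ A, φ a ∈ B) ∧ Group.IsNilpotent (H ⧸ B) ∧
      Group.nilpotencyClass (H ⧸ B) ≤ Group.nilpotencyClass (G ⧸ A) :=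
  Pool.Agent.Y849.OD.mainA A inferInstance hA hnil

end Pool.Agent.Results.MP_75351f_al.SameClass
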